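import Mathlib

namespace Pool.Agent.H.MP_38292b_an
open MeasureTheory Filter Topology

section
variable {E : Type} [AddCommGroup E] [Module ℝ E] [TopologicalSpace E] [MeasurableSpace E]

/-- `ξ` is a probability measure concentrated on the extreme points of `K` with barycentre `z` -/
def Rep (K : Set E) (z : E) (ξ : Measure E) : Prop :=
  IsProbabilityMeasure ξ ∧ ξ (K.extremePoints ℝ)ᶜ = 0 ∧ ∀ φ : E →L[ℝ] ℝ, ∫ y, φ y ∂ξ = φ z

/-- metrizable Choquet simplex -/
def IsSimplex (K : Set E) : Prop :=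
  IsCompact K ∧ Convex ℝ K ∧ TopologicalSpace.MetrizableSpace K ∧ ∀ z ∈ K, ∃! ξ, Rep K z ξ
end

/-- upper semicontinuity -/
def USC {Y : Type} [TopologicalSpace Y] (g : Y → EReal) : Prop :=
  ∀ t : ℝ, IsOpen {y | g y < t}

/-- Young class LU -/
def LU {Y : Type} [TopologicalSpace Y] (g : Y → EReal) : Prop :=
  ∃ u : ℕ → Y → EReal, (∀ n, USC (u n)) ∧ Monotone u ∧
    ∀ y, Tendsto (fun n => u n y) atTop (𝓝 (g y))

/-- the extension by the additive rule: the sum of `f` over the extreme points of a finite convex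
representation with positive weights, and `⊤` if there is none -/
noncomputable def addExt {E : Type} [AddCommGroup E] [Module ℝ E] (K : Set E)
    (f : K.extremePoints ℝ → ℕ∞) (z : E) : ℕ∞ :=
  ⨅ (s : Finset (K.extremePoints ℝ)) (_ : ∃ p : K.extremePoints ℝ → ℝ, (∀ e ∈ s, 0 < p e) ∧
    ∑ e ∈ s, p e = 1 ∧ ∑ e ∈ s, p e • (e : E) = z), ∑ e ∈ s, f e

end Pool.Agent.H.MP_38292b_an
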