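import Mathlib
import Pool.Agent.H.MP_38292b_an.Defs

namespace Pool.Agent.H.MP_38292b_an
open MeasureTheory Filter Topology Set Sum

abbrev II := unitInterval

lemma int_cont (ν : Measure II) [IsFiniteMeasure ν] {w : II → ℝ} (hw : Continuous w) :
    Integrable w ν :=
  hw.integrable_of_hasCompactSupport (HasCompactSupport.of_compactSpace w)

lemma mom_uniq (ν ν' : Measure II) [IsProbabilityMeasure ν] [IsProbabilityMeasure ν']
    (h : ∀ n : ℕ, ∫ t, (t : ℝ) ^ n ∂ν = ∫ t, (t : ℝ) ^ n ∂ν') : ν = ν' := by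
  have hp : ∀ p : Polynomial ℝ, ∫ t : II, p.eval (t : ℝ) ∂ν = ∫ t : II, p.eval (t : ℝ) ∂ν' := by
    intro p
    simp only [Polynomial.eval_eq_sum_range]
    rw [integral_finsetSum _ fun i _ => int_cont ν (by fun_prop),
      integral_finsetSum _ fun i _ => int_cont ν' (by fun_prop)]
    simp only [integral_const_mul, h]
  refine ext_of_forall_integral_eq_of_IsFiniteMeasure fun f => ?_
  refine eq_of_forall_dist_le fun ε hε => ?_
  obtain ⟨p, hp2⟩ := exists_polynomial_near_continuousMap 0 1 f.toContinuousMap (ε / 2) (half_pos hε)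
  have h1 : ∀ (μ : Measure II) [IsProbabilityMeasure μ],
      |∫ t : II, p.eval (t : ℝ) ∂μ - ∫ t, f t ∂μ| ≤ ε / 2 := by
    intro μ _
    rw [← integral_sub (int_cont μ (by fun_prop)) (int_cont μ f.continuous)]
    have := norm_integral_le_of_norm_le_const (μ := μ) (C := ε / 2)
      (f := fun t : II => p.eval (t : ℝ) - f t) (Eventually.of_forall fun t =>
        ((p.toContinuousMapOn _ - f.toContinuousMap).norm_coe_le_norm t).trans hp2.le)
    simpa using this
  have h2 := abs_le.1 (h1 ν)
  have h3 := abs_le.1 (h1 ν')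
  rw [Real.dist_eq, abs_le]
  constructor <;> linarith [hp p, h2.1, h2.2, h3.1, h3.2]

variable (Q : Set II)

abbrev EE := (ℕ ⊕ Q) → ℝ

open Classical in
noncomputable def g (x : II) (s : ℝ) : EE Q :=
  Sum.elim (fun n => (x : ℝ) ^ n) (fun j => if (j : II) = x then s else 0)

def KK : Set (EE Q) := {z | ∃ ν : Measure II, IsProbabilityMeasure ν ∧
  (∀ n, z (inl n) = ∫ t, (t : ℝ) ^ n ∂ν) ∧ ∀ j : Q, |z (inr j)| ≤ ν.real {(j : II)}}

def RR : Set (EE Q) := {z | ∃ x s, (s = 1 ∨ s = -1) ∧ z = g Q x s}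

variable {Q}

lemma g_inl (x : II) (s : ℝ) (n : ℕ) : g Q x s (inl n) = (x : ℝ) ^ n := rfl

lemma g_eq {x : II} {j : Q} (h : (j : II) = x) (s : ℝ) : g Q x s (inr j) = s := if_pos h

lemma g_ne {x : II} {j : Q} (h : (j : II) ≠ x) (s : ℝ) : g Q x s (inr j) = 0 := if_neg h

lemma g_mem (x : II) {s : ℝ} (hs : |s| ≤ 1) : g Q x s ∈ KK Q := by
  refine ⟨Measure.dirac x, inferInstance, fun n => by simp [g_inl], fun j => ?_⟩
  by_cases h : (j : II) = x
  · rw [g_eq h, h]; simpa [Measure.real] using hs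
  · rw [g_ne h]; simp

lemma K_convex : Convex ℝ (KK Q) := by
  rintro y ⟨ν, hν, h1, h2⟩ z ⟨μ, hμ, k1, k2⟩ a b ha hb hab
  lift a to NNReal using ha
  lift b to NNReal using hb
  have hab' : a + b = 1 := by exact_mod_cast hab
  refine ⟨a • ν + b • μ, ⟨?_⟩, fun n => ?_, fun j => ?_⟩
  · simp only [Measure.add_apply, Measure.smul_apply, measure_univ]
    simp only [ENNReal.smul_def, smul_eq_mul, mul_one]
    exact_mod_cast hab'
  · rw [integral_add_measure (int_cont _ (by fun_prop)) (int_cont _ (by fun_prop)),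
      integral_smul_nnreal_measure, integral_smul_nnreal_measure, ← h1, ← k1]
    rfl
  · rw [measureReal_add_apply, measureReal_nnreal_smul_apply, measureReal_nnreal_smul_apply]
    refine (abs_add_le _ _).trans ?_
    simp only [Pi.smul_apply, smul_eq_mul, abs_mul, NNReal.abs_eq]
    exact add_le_add (mul_le_mul_of_nonneg_left (h2 j) a.2) (mul_le_mul_of_nonneg_left (k2 j) b.2)

lemma K_compact : IsCompact (KK Q) := by
  let Φ : ProbabilityMeasure II × (Q → ℝ) → EE Q := fun p =>
    Sum.elim (fun n => ∫ t, (t : ℝ) ^ n ∂(p.1 : Measure II)) p.2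
  have hΦ : Continuous Φ := by
    refine continuous_pi fun i => ?_
    cases i with
    | inl n =>
      exact (ProbabilityMeasure.continuous_integral_continuousMap
        (⟨fun t : II => (t : ℝ) ^ n, by fun_prop⟩ : C(II, ℝ))).comp continuous_fst
    | inr j => exact (continuous_apply j).comp continuous_snd
  let S : Set (ProbabilityMeasure II × (Q → ℝ)) :=
    {p | ∀ j : Q, |p.2 j| ≤ (p.1 : Measure II).real {(j : II)}}
  have hS : IsClosed S := by
    refine isClosed_of_closure_subset fun p hp j => ?_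
    haveI := mem_closure_iff_nhdsWithin_neBot.1 hp
    have h1 := ProbabilityMeasure.limsup_measure_closed_le_of_tendsto
      ((continuous_fst.tendsto p).mono_left (nhdsWithin_le_nhds (s := S)))
      (isClosed_singleton (x := (j : II)))
    have h2 : Tendsto (fun q : ProbabilityMeasure II × (Q → ℝ) => ENNReal.ofReal |q.2 j|) (𝓝[S] p)
        (𝓝 (ENNReal.ofReal |p.2 j|)) :=
      ((ENNReal.continuous_ofReal.comp (by fun_prop)).tendsto p).mono_left nhdsWithin_le_nhds
    have h3 : ENNReal.ofReal |p.2 j| ≤ (p.1 : Measure II) {(j : II)} := by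
      rw [← h2.limsup_eq]
      refine le_trans (limsup_le_limsup ?_) h1
      filter_upwards [self_mem_nhdsWithin] with q hq
      exact ENNReal.ofReal_le_of_le_toReal (hq j)
    exact (ENNReal.ofReal_le_iff_le_toReal (measure_ne_top _ _)).1 h3
  have hSc : IsCompact S := by
    refine (isCompact_univ.prod (isCompact_univ_pi fun _ : Q =>
      isCompact_Icc (a := (-1 : ℝ)) (b := 1))).of_isClosed_subset hS fun p hp => ?_
    exact ⟨trivial, fun j _ => abs_le.1 ((hp j).trans measureReal_le_one)⟩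
  convert hSc.image hΦ using 1
  ext z
  constructor
  · rintro ⟨ν, hν, h1, h2⟩
    refine ⟨(⟨ν, hν⟩, fun j => z (inr j)), h2, ?_⟩
    funext i
    cases i with
    | inl n => exact (h1 n).symm
    | inr j => rfl
  · rintro ⟨p, hp, rfl⟩
    exact ⟨p.1, inferInstance, fun n => rfl, hp⟩

lemma var_eq {z : EE Q} {ν : Measure II} [IsProbabilityMeasure ν]
    (h1 : ∀ n, z (inl n) = ∫ t, (t : ℝ) ^ n ∂ν) (x : ℝ) :
    ∫ t : II, ((t : ℝ) - x) ^ 2 ∂ν = z (inl 2) - 2 * x * z (inl 1) + x ^ 2 := by
  have e : ∀ t : II, ((t : ℝ) - x) ^ 2 = (t : ℝ) ^ 2 - 2 * x * (t : ℝ) ^ 1 + x ^ 2 := fun t => by ring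
  simp only [e]
  rw [integral_add (int_cont _ (by fun_prop)) (int_cont _ (by fun_prop)),
    integral_sub (int_cont _ (by fun_prop)) (int_cont _ (by fun_prop)), integral_const_mul, h1, h1]
  simp

lemma var_nonneg {z : EE Q} (hz : z ∈ KK Q) (x : ℝ) :
    0 ≤ z (inl 2) - 2 * x * z (inl 1) + x ^ 2 := by
  obtain ⟨ν, hν, h1, -⟩ := hz
  rw [← var_eq h1]
  exact integral_nonneg fun t => sq_nonneg _

lemma co_le {z : EE Q} (hz : z ∈ KK Q) (j : Q) : |z (inr j)| ≤ 1 := by
  obtain ⟨ν, hν, -, h2⟩ := hz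
  exact (h2 j).trans measureReal_le_one

lemma var0 {z : EE Q} (hz : z ∈ KK Q) (x : II)
    (h : z (inl 2) - 2 * x * z (inl 1) + x ^ 2 ≤ 0) :
    (∀ n, z (inl n) = (x : ℝ) ^ n) ∧ ∀ j : Q, (j : II) ≠ x → z (inr j) = 0 := by
  have h0 := le_antisymm h (var_nonneg hz x)
  obtain ⟨ν, hν, h1, h2⟩ := hz
  have hc : Continuous fun t : II => ((t : ℝ) - (x : ℝ)) ^ 2 := by fun_prop
  rw [← var_eq h1, integral_eq_zero_iff_of_nonneg (fun t => sq_nonneg _) (int_cont _ hc)] at h0
  have h3 : ∀ᵐ t ∂ν, t = x := by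
    filter_upwards [h0] with t ht
    exact Subtype.ext (sub_eq_zero.1 (pow_eq_zero_iff two_ne_zero |>.1 ht))
  refine ⟨fun n => ?_, fun j hj => ?_⟩
  · rw [h1, integral_congr_ae (g := fun _ => (x : ℝ) ^ n) (by
      filter_upwards [h3] with t ht
      rw [ht])]
    simp
  · have h4 : ν {(j : II)} = 0 := measure_mono_null (by
      rintro t rfl; exact hj) (ae_iff.1 h3)
    have := h2 j
    rw [Measure.real, h4] at this
    simpa using this

lemma dens {z : EE Q} {ν : Measure II} [IsProbabilityMeasure ν]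
    (h2 : ∀ j : Q, |z (inr j)| ≤ ν.real {(j : II)}) (w : II → ℝ) (hw : Continuous w)
    (hw0 : ∀ t, 0 ≤ w t) (hw1 : ∫ t, w t ∂ν = 1) :
    (Sum.elim (fun n => ∫ t, w t * (t : ℝ) ^ n ∂ν) (fun j => w j * z (inr j)) : EE Q) ∈ KK Q := by
  refine ⟨ν.withDensity fun t => ENNReal.ofReal (w t), ⟨?_⟩, fun n => ?_, fun j => ?_⟩
  · rw [withDensity_apply _ MeasurableSet.univ, Measure.restrict_univ,
      ← ofReal_integral_eq_lintegral_ofReal (int_cont _ hw) (Eventually.of_forall hw0), hw1]
    simp
  · rw [integral_withDensity_eq_integral_toReal_smul (by fun_prop) (by simp)]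
    simp [ENNReal.toReal_ofReal (hw0 _)]
  · rw [Measure.real, withDensity_apply _ (measurableSet_singleton _), lintegral_singleton,
      ENNReal.toReal_mul, ENNReal.toReal_ofReal (hw0 _)]
    change |w j * z (inr j)| ≤ _
    rw [abs_mul, abs_of_nonneg (hw0 _)]
    exact mul_le_mul_of_nonneg_left (h2 j) (hw0 _)

lemma ext_eq : (KK Q).extremePoints ℝ = RR Q := by
  ext z
  rw [mem_extremePoints_iff_left]
  constructor
  · rintro ⟨hz, H⟩
    obtain ⟨ν, hν, h1, h2⟩ := id hz
    set m := z (inl 1) with hm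
    have hm1 : ∫ t : II, (t : ℝ) ∂ν = m := by rw [hm, h1]; simp
    have hm0 : 0 ≤ m := hm1 ▸ integral_nonneg fun t => t.2.1
    have hm2 : ∫ t : II, (1 - (t : ℝ)) ∂ν = 1 - m := by
      rw [integral_sub (int_cont _ (by fun_prop)) (int_cont _ (by fun_prop)), hm1]; simp
    have hm3 : 0 ≤ 1 - m := hm2 ▸ integral_nonneg fun t => sub_nonneg.2 t.2.2
    have hv : z (inl 2) - 2 * m * m + m ^ 2 ≤ 0 := by
      have h3 : z (inl 2) ≤ m := by
        rw [h1, ← hm1]
        refine integral_mono (int_cont _ (by fun_prop)) (int_cont _ (by fun_prop)) fun t => ?_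
        have := t.2.1
        have := t.2.2
        simp only
        nlinarith
      rcases hm0.eq_or_lt with h4 | h4
      · nlinarith
      rcases hm3.eq_or_lt with h5 | h5
      · nlinarith
      have a1 := dens h2 (fun t => (t : ℝ) / m) (by fun_prop) (fun t => div_nonneg t.2.1 hm0)
        (by rw [integral_div, hm1, div_self h4.ne'])
      have a2 := dens h2 (fun t => (1 - (t : ℝ)) / (1 - m)) (by fun_prop)
        (fun t => div_nonneg (sub_nonneg.2 t.2.2) hm3) (by rw [integral_div, hm2, div_self h5.ne'])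
      have a3 := H _ a1 _ a2 ⟨m, 1 - m, h4, h5, by ring, by
        funext i
        cases i with
        | inl n =>
          simp only [Pi.add_apply, Pi.smul_apply, smul_eq_mul, elim_inl, ← integral_const_mul]
          rw [← integral_add (int_cont _ (by fun_prop)) (int_cont _ (by fun_prop)), h1]
          congr 1
          funext t
          field_simp
          ring
        | inr j =>
          simp only [Pi.add_apply, Pi.smul_apply, smul_eq_mul, elim_inr]
          field_simp
          ring⟩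
      have a4 := congrFun a3 (inl 1)
      simp only [elim_inl] at a4
      have e : ∀ t : II, (t : ℝ) / m * (t : ℝ) ^ 1 = (t : ℝ) ^ 2 / m := fun t => by ring
      simp only [e] at a4
      rw [integral_div, ← h1, ← hm, div_eq_iff h4.ne'] at a4
      nlinarith
    let x : II := ⟨m, hm0, by linarith⟩
    obtain ⟨b1, b2⟩ := var0 hz x hv
    have hs : ∃ s, |s| ≤ 1 ∧ z = g Q x s ∧ (x ∉ Q → s = 1) := by
      by_cases hx : x ∈ Q
      · refine ⟨z (inr ⟨x, hx⟩), co_le hz _, ?_, fun h => absurd hx h⟩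
        funext i
        cases i with
        | inl n => exact b1 n
        | inr j =>
          by_cases hj : (j : II) = x
          · rw [g_eq hj]; congr 2; exact Subtype.ext hj
          · rw [g_ne hj, b2 j hj]
      · refine ⟨1, by simp, ?_, fun _ => rfl⟩
        funext i
        cases i with
        | inl n => exact b1 n
        | inr j =>
          have hj : (j : II) ≠ x := fun h => hx (h ▸ j.2)
          rw [g_ne hj, b2 j hj]
    obtain ⟨s, hs1, hs2, hs3⟩ := hs
    refine ⟨x, s, ?_, hs2⟩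
    by_contra h3
    push Not at h3
    have hx : x ∈ Q := by by_contra h4; exact h3.1 (hs3 h4)
    rw [abs_le] at hs1
    have h4 : s < 1 := lt_of_le_of_ne hs1.2 h3.1
    have h5 : -1 < s := lt_of_le_of_ne hs1.1 (Ne.symm h3.2)
    have h6 := H _ (g_mem x (s := 1) (by simp)) _ (g_mem x (s := -1) (by simp))
      ⟨(1 + s) / 2, (1 - s) / 2, by linarith, by linarith, by ring, by
        rw [hs2]
        funext i
        cases i with
        | inl n => simp only [Pi.add_apply, Pi.smul_apply, smul_eq_mul, g_inl]; ring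
        | inr j =>
          simp only [Pi.add_apply, Pi.smul_apply, smul_eq_mul]
          by_cases hj : (j : II) = x
          · simp only [g_eq hj]; ring
          · simp only [g_ne hj]; ring⟩
    have h7 := congrFun (h6.trans hs2) (inr ⟨x, hx⟩)
    rw [g_eq (j := ⟨x, hx⟩) rfl, g_eq (j := ⟨x, hx⟩) rfl] at h7
    linarith
  · rintro ⟨x, s, hs, rfl⟩
    have hs1 : |s| ≤ 1 := by rcases hs with rfl | rfl <;> simp
    refine ⟨g_mem x hs1, ?_⟩
    rintro y hy w hw ⟨a, b, ha, hb, hab, h⟩
    have e : ∀ i, a * y i + b * w i = g Q x s i := fun i => congrFun h i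
    have v1 := var_nonneg hy x
    have v2 := var_nonneg hw x
    have e1 := e (inl 1)
    have e2 := e (inl 2)
    rw [g_inl] at e1 e2
    have v3 : a * (y (inl 2) - 2 * x * y (inl 1) + x ^ 2) +
        b * (w (inl 2) - 2 * x * w (inl 1) + x ^ 2) = 0 := by
      linear_combination e2 - 2 * x * e1 + x ^ 2 * hab
    obtain ⟨b1, b2⟩ := var0 hy x (by nlinarith)
    funext i
    cases i with
    | inl n => exact b1 n
    | inr j =>
      by_cases hj : (j : II) = x
      · have e3 := e (inr j)
        rw [g_eq hj] at e3 ⊢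
        have c1 := abs_le.1 (co_le hy j)
        have c2 := abs_le.1 (co_le hw j)
        rcases hs with rfl | rfl <;> nlinarith [c1.1, c1.2, c2.1, c2.2]
      · rw [g_ne hj, b2 j hj]

end Pool.Agent.H.MP_38292b_an
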