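import Mathlib
import Pool.Agent.H.MP_38292b_an.A

namespace Pool.Agent.H.MP_38292b_an
open MeasureTheory Filter Topology Set Sum

variable {Q : Set II} [Countable Q]

omit [Countable Q] in
lemma g_abs (x : II) {s : ℝ} (hs : |s| ≤ 1) (i) : |g Q x s i| ≤ 1 := by
  cases i with
  | inl n => rw [g_inl, abs_of_nonneg (pow_nonneg x.2.1 n)]; exact pow_le_one₀ x.2.1 x.2.2
  | inr j => exact co_le (g_mem x hs) j

omit [Countable Q] in
lemma g_meas (s : ℝ) : Measurable fun x => g Q x s := by
  refine measurable_pi_lambda _ fun i => ?_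
  cases i with
  | inl n => exact (by fun_prop : Continuous fun x : II => (x : ℝ) ^ n).measurable
  | inr j =>
    refine (measurable_const (a := (0 : ℝ))).measurable_of_countable_ne
      ((countable_singleton (j : II)).mono fun x hx => ?_)
    by_contra h
    exact hx (g_ne (Ne.symm h) s).symm

omit [Countable Q] in
lemma int_co (ξ : Measure (EE Q)) [IsFiniteMeasure ξ] (h : ξ (RR Q)ᶜ = 0) (i) :
    Integrable (fun y : EE Q => y i) ξ := by
  refine Integrable.of_bound (measurable_pi_apply i).aestronglyMeasurable 1 ?_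
  filter_upwards [show ∀ᵐ y ∂ξ, y ∈ RR Q from h]
  rintro y ⟨x, s, hs, rfl⟩
  exact g_abs x (by rcases hs with rfl | rfl <;> simp) i

omit [Countable Q] in
lemma bary (ξ : Measure (EE Q)) [IsFiniteMeasure ξ] (h : ξ (RR Q)ᶜ = 0) (z : EE Q)
    (hz : ∀ i, ∫ y, y i ∂ξ = z i) (φ : EE Q →L[ℝ] ℝ) : ∫ y, φ y ∂ξ = φ z := by
  have h1 : φ.toLinearMap ∈ Submodule.span ℝ
      (range fun i : ℕ ⊕ Q => (LinearMap.proj i : EE Q →ₗ[ℝ] ℝ)) :=
    (LinearMap.mem_span_iff_continuous _).2 φ.continuous
  have h2 : ∀ ψ ∈ Submodule.span ℝ (range fun i : ℕ ⊕ Q => (LinearMap.proj i : EE Q →ₗ[ℝ] ℝ)),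
      Integrable ψ ξ ∧ ∫ y, ψ y ∂ξ = ψ z := by
    intro ψ hψ
    induction hψ using Submodule.span_induction with
    | mem x hx => obtain ⟨i, rfl⟩ := hx; exact ⟨int_co ξ h i, hz i⟩
    | zero => exact ⟨integrable_zero _ _ _, by simp⟩
    | add a b _ _ ha hb =>
      refine ⟨ha.1.add hb.1, ?_⟩
      simp only [LinearMap.add_apply]
      rw [integral_add ha.1 hb.1, ha.2, hb.2]
    | smul c a _ ha =>
      refine ⟨ha.1.smul c, ?_⟩
      simp only [LinearMap.smul_apply, smul_eq_mul]
      rw [integral_const_mul, ha.2]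
  exact (h2 _ h1).2

noncomputable def pr (y : EE Q) : II := projIcc 0 1 zero_le_one (y (inl 1))

omit [Countable Q] in
lemma pr_g (x : II) (s : ℝ) : pr (g Q x s) = x := by simp [pr, g_inl]

omit [Countable Q] in
lemma pr_meas : Measurable (pr (Q := Q)) :=
  continuous_projIcc.measurable.comp (measurable_pi_apply _)

lemma R_meas : MeasurableSet (RR Q) := by
  have : RR Q = {y | y = g Q (pr y) 1} ∪ {y | y = g Q (pr y) (-1)} := by
    ext y
    constructor
    · rintro ⟨x, s, rfl | rfl, rfl⟩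
      · left; simp [pr_g]
      · right; simp [pr_g]
    · rintro (h | h)
      exacts [⟨_, _, Or.inl rfl, h⟩, ⟨_, _, Or.inr rfl, h⟩]
  rw [this]
  exact (measurableSet_eq_fun measurable_id ((g_meas _).comp pr_meas)).union
    (measurableSet_eq_fun measurable_id ((g_meas _).comp pr_meas))

lemma rep_ex {z : EE Q} (hz : z ∈ KK Q) : ∃ ξ, Rep (KK Q) z ξ := by
  classical
  obtain ⟨ν, hν, h1, h2⟩ := hz
  let r : II → ℝ := fun t => if h : t ∈ Q then z (inr ⟨t, h⟩) / ν.real {t} else 0
  have hr : ∀ t, |r t| ≤ 1 := by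
    intro t
    simp only [r]
    split_ifs with h
    · rw [abs_div, abs_of_nonneg (measureReal_nonneg (s := {t}))]
      exact div_le_one_of_le₀ (h2 ⟨t, h⟩) measureReal_nonneg
    · simp
  have hrm : Measurable r :=
    (measurable_const (a := (0 : ℝ))).measurable_of_countable_ne
      ((to_countable Q).mono fun x hx => by
        by_contra h
        exact hx (by simp only [r, dif_neg h]))
  let μ : ℝ → Measure (EE Q) := fun s =>
    (ν.withDensity fun t => ENNReal.ofReal ((1 + s * r t) / 2)).map fun x => g Q x s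
  have hpos : ∀ s : ℝ, |s| ≤ 1 → ∀ t, 0 ≤ (1 + s * r t) / 2 ∧ (1 + s * r t) / 2 ≤ 1 := by
    intro s hs t
    have : |s * r t| ≤ 1 := by rw [abs_mul]; exact mul_le_one₀ hs (abs_nonneg _) (hr t)
    rw [abs_le] at this
    constructor <;> linarith [this.1, this.2]
  have hi : ∀ s : ℝ, |s| ≤ 1 → ∀ ψ : II → ℝ, Measurable ψ → (∀ t, |ψ t| ≤ 1) →
      Integrable (fun t => (1 + s * r t) / 2 * ψ t) ν := by
    intro s hs ψ hψ hb
    refine Integrable.of_bound (Measurable.aestronglyMeasurable (by fun_prop)) 1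
      (Eventually.of_forall fun t => ?_)
    rw [Real.norm_eq_abs, abs_mul, abs_of_nonneg (hpos s hs t).1]
    exact mul_le_one₀ (hpos s hs t).2 (abs_nonneg _) (hb t)
  have hfin : ∀ s : ℝ, |s| ≤ 1 → IsFiniteMeasure (μ s) := by
    intro s hs
    haveI := isFiniteMeasure_withDensity_ofReal (μ := ν) (f := fun t => (1 + s * r t) / 2)
      (by simpa using (hi s hs (fun _ => 1) measurable_const (by simp)).2)
    exact Measure.isFiniteMeasure_map _ _
  have hint : ∀ s : ℝ, |s| ≤ 1 → ∀ i, ∫ y, y i ∂μ s = ∫ t, (1 + s * r t) / 2 * g Q t s i ∂ν := by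
    intro s hs i
    rw [integral_map (g_meas s).aemeasurable (measurable_pi_apply i).aestronglyMeasurable,
      integral_withDensity_eq_integral_toReal_smul (by fun_prop) (by simp)]
    simp only [ENNReal.toReal_ofReal (hpos s hs _).1, smul_eq_mul]
  have hR : ∀ s : ℝ, s = 1 ∨ s = -1 → μ s (RR Q)ᶜ = 0 := by
    intro s hs
    rw [Measure.map_apply (g_meas s) R_meas.compl]
    have : (fun x => g Q x s) ⁻¹' (RR Q)ᶜ = ∅ :=
      eq_empty_of_forall_notMem fun x hx => hx ⟨x, s, hs, rfl⟩
    rw [this, measure_empty]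
  haveI := hfin 1 (by simp)
  haveI := hfin (-1) (by simp)
  have hR' : (μ 1 + μ (-1)) (RR Q)ᶜ = 0 := by
    rw [Measure.add_apply, hR 1 (Or.inl rfl), hR (-1) (Or.inr rfl), add_zero]
  have hco : ∀ i, ∫ y, y i ∂(μ 1 + μ (-1)) = z i := by
    intro i
    rw [integral_add_measure (int_co _ (hR 1 (Or.inl rfl)) i) (int_co _ (hR (-1) (Or.inr rfl)) i),
      hint 1 (by simp), hint (-1) (by simp), ← integral_add
        (hi 1 (by simp) (fun t => g Q t 1 i) ((measurable_pi_apply i).comp (g_meas 1))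
          fun t => g_abs t (by simp) i)
        (hi (-1) (by simp) (fun t => g Q t (-1) i) ((measurable_pi_apply i).comp (g_meas (-1)))
          fun t => g_abs t (by simp) i)]
    cases i with
    | inl n =>
      rw [h1]
      congr 1
      funext t
      simp only [g_inl]; ring
    | inr j =>
      have e : (fun t => (1 + 1 * r t) / 2 * g Q t 1 (inr j) + (1 + -1 * r t) / 2 * g Q t (-1) (inr j))
          = indicator {(j : II)} fun _ => r j := by
        funext t
        by_cases h : (j : II) = t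
        · subst h; simp only [g_eq rfl, indicator_of_mem (mem_singleton _)]; ring
        · simp only [g_ne h]; rw [indicator_of_notMem (s := {(j : II)}) (Ne.symm h)]; ring
      rw [e, integral_indicator_const _ (measurableSet_singleton _), smul_eq_mul]
      simp only [r, dif_pos j.2]
      by_cases h0 : ν.real {(j : II)} = 0
      · have := h2 j
        rw [h0] at this ⊢
        simpa [eq_comm] using this
      · field_simp
  refine ⟨μ 1 + μ (-1), ?_, by rwa [ext_eq], bary _ hR' z hco⟩
  have h3 := hco (inl 0)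
  rw [h1, integral_congr_ae (g := fun _ => (1 : ℝ)) (by
    filter_upwards [show ∀ᵐ y ∂(μ 1 + μ (-1)), y ∈ RR Q from hR']
    rintro y ⟨x, s, -, rfl⟩
    simp [g_inl])] at h3
  simp only [integral_const, smul_eq_mul, mul_one, pow_zero, probReal_univ] at h3
  exact ⟨(ENNReal.toReal_eq_one_iff _).1 h3⟩

def NN (Q : Set II) : Set (EE Q) := {y | ∃ j, y (inr j) < 0}

lemma N_meas : MeasurableSet (NN Q) := by
  unfold NN
  rw [ofPred_exists]
  exact MeasurableSet.iUnion fun j => measurableSet_lt (measurable_pi_apply _) measurable_const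

omit [Countable Q] in
lemma R_N {y : EE Q} (hy : y ∈ RR Q) (h : y ∈ NN Q) : y = g Q (pr y) (-1) ∧ pr y ∈ Q := by
  obtain ⟨x, s, hs, rfl⟩ := hy
  obtain ⟨j, hj⟩ := h
  rw [pr_g]
  by_cases h1 : (j : II) = x
  · rw [g_eq h1] at hj
    rcases hs with rfl | rfl
    · norm_num at hj
    · exact ⟨rfl, h1 ▸ j.2⟩
  · rw [g_ne h1] at hj; exact absurd hj (lt_irrefl _)

omit [Countable Q] in
lemma R_N' {y : EE Q} (hy : y ∈ RR Q) (h : y ∉ NN Q) : y = g Q (pr y) 1 := by
  obtain ⟨x, s, rfl | rfl, rfl⟩ := hy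
  · rw [pr_g]
  · rw [pr_g]
    funext i
    cases i with
    | inl n => rfl
    | inr j =>
      by_cases h1 : (j : II) = x
      · exact absurd ⟨j, by rw [g_eq h1]; norm_num⟩ h
      · rw [g_ne h1, g_ne h1]

lemma rep_facts {z : EE Q} {ξ : Measure (EE Q)} (h : Rep (KK Q) z ξ) :
    ξ = ((ξ.restrict (NN Q)ᶜ).map pr).map (fun x => g Q x 1) +
      ((ξ.restrict (NN Q)).map pr).map (fun x => g Q x (-1)) ∧
    (∀ n, ∫ t : II, (t : ℝ) ^ n ∂(ξ.map pr) = z (inl n)) ∧ (ξ.restrict (NN Q)).map pr Qᶜ = 0 ∧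
    ∀ j : Q, (ξ.map pr).real {(j : II)} - 2 * ((ξ.restrict (NN Q)).map pr).real {(j : II)} =
      z (inr j) := by
  obtain ⟨h1, h2, h3⟩ := h
  rw [ext_eq] at h2
  have hR : ∀ᵐ y ∂ξ, y ∈ RR Q := h2
  have hN : ∀ᵐ y ∂ξ.restrict (NN Q), y = g Q (pr y) (-1) ∧ pr y ∈ Q := by
    filter_upwards [ae_restrict_of_ae hR, ae_restrict_mem N_meas] with y a b using R_N a b
  have hN' : ∀ᵐ y ∂ξ.restrict (NN Q)ᶜ, y = g Q (pr y) 1 := by
    filter_upwards [ae_restrict_of_ae hR, ae_restrict_mem N_meas.compl] with y a b using R_N' a b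
  have hco : ∀ i, ∫ y, y i ∂ξ = z i := fun i => h3 (ContinuousLinearMap.proj i)
  refine ⟨?_, fun n => ?_, ?_, fun j => ?_⟩
  · rw [Measure.map_map (g_meas _) pr_meas, Measure.map_map (g_meas _) pr_meas,
      Measure.map_congr (μ := ξ.restrict (NN Q)ᶜ) (g := id)
        (by filter_upwards [hN'] with y hy using hy.symm),
      Measure.map_congr (μ := ξ.restrict (NN Q)) (g := id)
        (by filter_upwards [hN] with y hy using hy.1.symm),
      Measure.map_id, Measure.map_id, Measure.restrict_compl_add_restrict N_meas]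
  · rw [integral_map pr_meas.aemeasurable (Continuous.aestronglyMeasurable (by fun_prop)), ← hco]
    refine integral_congr_ae ?_
    filter_upwards [hR]
    rintro y ⟨x, s, -, rfl⟩
    rw [pr_g, g_inl]
  · rw [Measure.map_apply pr_meas (to_countable Q).measurableSet.compl]
    exact (by filter_upwards [hN] with y hy using hy.2 : ∀ᵐ y ∂ξ.restrict (NN Q), pr y ∈ Q)
  · have hm : MeasurableSet (pr (Q := Q) ⁻¹' {(j : II)}) := pr_meas (measurableSet_singleton _)
    rw [map_measureReal_apply pr_meas (measurableSet_singleton _),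
      map_measureReal_apply pr_meas (measurableSet_singleton _), measureReal_restrict_apply hm,
      ← hco, ← integral_indicator_one hm, ← integral_indicator_one (hm.inter N_meas),
      ← integral_const_mul, ← integral_sub ((integrable_const _).indicator hm)
        (((integrable_const _).indicator (hm.inter N_meas)).const_mul _)]
    refine integral_congr_ae ?_
    filter_upwards [hR] with y hy
    by_cases h4 : (j : II) = pr y
    · by_cases h5 : y ∈ NN Q
      · rw [indicator_of_mem (by exact h4.symm), indicator_of_mem (by exact ⟨h4.symm, h5⟩),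
          (R_N hy h5).1, g_eq h4]
        simp only [Pi.one_apply]; norm_num
      · rw [indicator_of_mem (by exact h4.symm), indicator_of_notMem (fun h => h5 h.2),
          R_N' hy h5, g_eq h4]
        simp
    · rw [indicator_of_notMem (fun h => h4 h.symm), indicator_of_notMem (fun h => h4 h.1.symm)]
      obtain ⟨x, s, -, rfl⟩ := hy
      rw [pr_g] at h4
      rw [g_ne h4]; simp

lemma rep_uniq {z : EE Q} {ξ ξ' : Measure (EE Q)} (h : Rep (KK Q) z ξ) (h' : Rep (KK Q) z ξ') :
    ξ = ξ' := by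
  obtain ⟨a1, a2, a3, a4⟩ := rep_facts h
  obtain ⟨b1, b2, b3, b4⟩ := rep_facts h'
  haveI := h.1
  haveI := h'.1
  haveI := Measure.isProbabilityMeasure_map (μ := ξ) pr_meas.aemeasurable
  haveI := Measure.isProbabilityMeasure_map (μ := ξ') pr_meas.aemeasurable
  have e1 : ξ.map pr = ξ'.map pr := mom_uniq _ _ fun n => by rw [a2, b2]
  have e2 : (ξ.restrict (NN Q)).map pr = (ξ'.restrict (NN Q)).map pr := by
    have h1 : ∀ j : Q, (ξ.restrict (NN Q)).map pr {(j : II)} = (ξ'.restrict (NN Q)).map pr {(j : II)} := by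
      intro j
      rw [← ENNReal.toReal_eq_toReal_iff' (measure_ne_top _ _) (measure_ne_top _ _)]
      have c1 := a4 j
      have c2 := b4 j
      rw [e1] at c1
      change Measure.real _ _ = Measure.real _ _
      linarith
    have h2 : ∀ μ : Measure II, μ Qᶜ = 0 → ∀ S, MeasurableSet S →
        μ S = ∑' p : (S ∩ Q : Set II), μ {(p : II)} := by
      intro μ hμ S _
      rw [← measure_biUnion ((to_countable Q).mono inter_subset_right)
        (fun a _ b _ hab => disjoint_singleton.2 hab) (fun _ _ => measurableSet_singleton _),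
        biUnion_of_singleton, measure_inter_conull hμ]
    ext S hS
    rw [h2 _ a3 S hS, h2 _ b3 S hS]
    exact tsum_congr fun p => h1 ⟨p, p.2.2⟩
  have e3 : (ξ.restrict (NN Q)ᶜ).map pr = (ξ'.restrict (NN Q)ᶜ).map pr := by
    rw [← Measure.add_left_inj ((ξ.restrict (NN Q)).map pr)]
    conv_rhs => rw [e2]
    rw [← Measure.map_add _ _ pr_meas, ← Measure.map_add _ _ pr_meas,
      Measure.restrict_compl_add_restrict N_meas, Measure.restrict_compl_add_restrict N_meas, e1]
  rw [a1, b1, e2, e3]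

lemma simplex : IsSimplex (KK Q) :=
  ⟨K_compact, K_convex, inferInstance, fun _ hz =>
    let ⟨ξ, h⟩ := rep_ex hz; ⟨ξ, h, fun _ h' => rep_uniq h' h⟩⟩

end Pool.Agent.H.MP_38292b_an
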